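import Pool.Agent.Helper47.Law.Term

/-!
# Moments of the local Fourier transform as averages over configurations (helper47)
-/

set_option autoImplicit false

open Finset MeasureTheory Filter Topology
open scoped ComplexConjugate

namespace Pool.Agent.Helper47.Law

open Pool.Agent.Results.MP_4a7640_nt.DisplacedCubes (Val X shift seq IsFurstenbergSystem IsMult Aperiodic cube
  val_le mean_int)

lemma vol_eq : (volume : Measure UnitAddCircle) = AddCircle.haarAddCircle := by
  rw [AddCircle.volume_eq_smul_haarAddCircle]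
  simp

lemma int_fourier (k : ℤ) : ∫ θ : UnitAddCircle, (fourier k θ : ℂ) = if k = 0 then 1 else 0 := by
  have h1 := congrFun (fourierCoeff_fourier (T := 1) k) 0
  unfold fourierCoeff at h1
  rw [vol_eq]
  simp only [neg_zero, fourier_zero, one_smul] at h1
  rw [h1, Pi.single_apply]
  by_cases h : k = 0
  · rw [if_pos h, if_pos h.symm]
  · rw [if_neg h, if_neg (Ne.symm h)]

lemma cont_int {f : UnitAddCircle → ℂ} (hf : Continuous f) : Integrable f :=
  hf.integrable_of_hasCompactSupport (HasCompactSupport.of_compactSpace f)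

lemma cont_int_r {f : UnitAddCircle → ℝ} (hf : Continuous f) : Integrable f :=
  hf.integrable_of_hasCompactSupport (HasCompactSupport.of_compactSpace f)

/-- the local Fourier sum -/
noncomputable def S (H : ℕ) (x : X) (α : UnitAddCircle) : ℂ :=
  ∑ z ∈ Ico (0 : ℤ) H, ((x z : ℝ) : ℂ) * fourier z α

lemma S_cont (H : ℕ) (x : X) : Continuous (S H x) := by
  unfold S
  exact continuous_finsetSum _ fun z _ => continuous_const.mul (ContinuousMap.continuous _)

lemma fourier_prod {ι : Type*} (s : Finset ι) (u : ι → ℤ) (α : UnitAddCircle) :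
    ∏ i ∈ s, (fourier (u i) α : ℂ) = fourier (∑ i ∈ s, u i) α := by
  classical
  induction s using Finset.induction_on with
  | empty => simp
  | insert i s hi ih => rw [prod_insert hi, sum_insert hi, ih, fourier_add]

/-- tuples of window points -/
noncomputable def Tu (K H : ℕ) : Finset (Option (Fin K) → ℤ) := Fintype.piFinset fun _ => Ico (0 : ℤ) H

lemma S_pow (K H : ℕ) (x : X) (α : UnitAddCircle) :
    S H x α ^ (K + 1) = ∑ u ∈ Tu K H, ((∏ i, (x (u i) : ℝ) : ℝ) : ℂ) * fourier (∑ i, u i) α := by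
  have e1 : S H x α ^ (K + 1) = ∏ _i : Option (Fin K), S H x α := by
    rw [prod_const, card_univ, Fintype.card_option, Fintype.card_fin]
  rw [e1]
  unfold S Tu
  rw [Finset.prod_univ_sum]
  apply sum_congr rfl
  intro u _
  rw [prod_mul_distrib, fourier_prod]
  push_cast
  rfl

lemma S_norm (K H : ℕ) (x : X) (α : UnitAddCircle) :
    ((‖S H x α‖ ^ (2 * (K + 1)) : ℝ) : ℂ) = ∑ u ∈ Tu K H, ∑ v ∈ Tu K H,
      (((∏ i, (x (u i) : ℝ)) * ∏ i, (x (v i) : ℝ) : ℝ) : ℂ) * fourier (∑ i, u i - ∑ i, v i) α := by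
  have e1 : ((‖S H x α‖ ^ (2 * (K + 1)) : ℝ) : ℂ) = S H x α ^ (K + 1) * conj (S H x α ^ (K + 1)) := by
    rw [Complex.mul_conj, Complex.normSq_eq_norm_sq, norm_pow, ← pow_mul, mul_comm 2]
  rw [e1, S_pow, map_sum, sum_mul_sum]
  apply sum_congr rfl
  intro u _
  apply sum_congr rfl
  intro v _
  rw [map_mul, Complex.conj_ofReal, ← fourier_neg, sub_eq_add_neg, fourier_add]
  push_cast
  ring

/-- integration against a character -/
lemma S_int (K H : ℕ) (Δ : ℤ) (x : X) :
    ∫ α : UnitAddCircle, (fourier Δ α : ℂ) * ((‖S H x α‖ ^ (2 * (K + 1)) : ℝ) : ℂ) =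
      ((∑ q ∈ (Tu K H ×ˢ Tu K H).filter (fun q => ∑ i, q.1 i - ∑ i, q.2 i + Δ = 0),
        (∏ i, (x (q.1 i) : ℝ)) * ∏ i, (x (q.2 i) : ℝ) : ℝ) : ℂ) := by
  have e1 : ∀ α : UnitAddCircle, (fourier Δ α : ℂ) * ((‖S H x α‖ ^ (2 * (K + 1)) : ℝ) : ℂ) =
      ∑ q ∈ Tu K H ×ˢ Tu K H, (((∏ i, (x (q.1 i) : ℝ)) * ∏ i, (x (q.2 i) : ℝ) : ℝ) : ℂ) *
        fourier (∑ i, q.1 i - ∑ i, q.2 i + Δ) α := by
    intro α
    rw [S_norm, sum_product, mul_sum]
    apply sum_congr rfl
    intro u _
    rw [mul_sum]
    apply sum_congr rfl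
    intro v _
    rw [fourier_add (m := ∑ i, u i - ∑ i, v i)]
    ring
  simp only [e1]
  have hint : ∀ q ∈ Tu K H ×ˢ Tu K H, Integrable (fun α : UnitAddCircle =>
      (((∏ i, (x (q.1 i) : ℝ)) * ∏ i, (x (q.2 i) : ℝ) : ℝ) : ℂ) *
        (fourier (∑ i, q.1 i - ∑ i, q.2 i + Δ) α : ℂ)) :=
    fun q _ => cont_int (continuous_const.mul (ContinuousMap.continuous _))
  rw [integral_finsetSum _ hint, sum_filter, Complex.ofReal_sum]
  apply sum_congr rfl
  intro q _
  rw [integral_const_mul, int_fourier]
  split_ifs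
  · rw [mul_one]
  · rw [mul_zero, Complex.ofReal_zero]

/-- the configuration of the moments -/
def cfg (K : ℕ) (hK : 1 ≤ K) (δ : ℤ) : Cf where
  P := Option (Option (Fin K × Bool))
  C := Option (Fin K × Bool)
  fP := inferInstance
  dP := inferInstance
  fC := inferInstance
  dC := inferInstance
  τ := fun p => match p with
    | none => {none}
    | some none => insert none (univ.image fun i : Fin K => some (i, true))
    | some (some (i, false)) => {none, some (i, false)}
    | some (some (i, true)) => {none, some (i, true), some (i, false)}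
  inj := by
    intro p q h
    rw [Finset.ext_iff] at h
    rcases p with _ | _ | ⟨i, _ | _⟩ <;> rcases q with _ | _ | ⟨j, _ | _⟩
    · rfl
    · have := h (some (⟨0, by omega⟩, true)); simp at this
    · have := h (some (j, false)); simp at this
    · have := h (some (j, false)); simp at this
    · have := h (some (⟨0, by omega⟩, true)); simp at this
    · rfl
    · have := h (some (j, false)); simp at this
    · have := h (some (j, false)); simp at this
    · have := h (some (i, false)); simp at this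
    · have := h (some (i, false)); simp at this
    · have := h (some (i, false)); simp at this; rw [this]
    · have := h (some (j, true)); simp at this
    · have := h (some (i, false)); simp at this
    · have := h (some (i, false)); simp at this
    · have := h (some (i, true)); simp at this
    · have := h (some (i, false)); simp at this; rw [this]
  ne := by
    intro p
    refine ⟨none, ?_⟩
    rcases p with _ | _ | ⟨i, _ | _⟩ <;> simp
  d := fun p => match p with
    | some none => δ
    | _ => 0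

section

variable {K : ℕ} (hK : 1 ≤ K) (δ : ℤ) (h : Option (Fin K × Bool) → ℤ)

lemma cfg_L0 : (cfg K hK δ).L h none = h none := by
  show ∑ i ∈ ({none} : Finset (Option (Fin K × Bool))), h i + 0 = _
  simp

lemma cfg_L1 : (cfg K hK δ).L h (some none) = h none + ∑ i, h (some (i, true)) + δ := by
  show ∑ i ∈ insert none (univ.image fun i : Fin K => (some (i, true) : Option (Fin K × Bool))), h i + δ = _
  rw [sum_insert (by simp), sum_image (fun i _ j _ hij => by simpa using hij)]

lemma cfg_L2 (i : Fin K) : (cfg K hK δ).L h (some (some (i, false))) = h none + h (some (i, false)) := by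
  show ∑ i ∈ ({none, some (i, false)} : Finset (Option (Fin K × Bool))), h i + 0 = _
  rw [sum_insert (by simp), sum_singleton, add_zero]

lemma cfg_L3 (i : Fin K) : (cfg K hK δ).L h (some (some (i, true))) =
    h none + h (some (i, true)) + h (some (i, false)) := by
  show ∑ i ∈ ({none, some (i, true), some (i, false)} : Finset (Option (Fin K × Bool))), h i + 0 = _
  rw [sum_insert (by simp), sum_insert (by simp), sum_singleton, add_zero, add_assoc]

lemma cfg_pr (x : X) : (cfg K hK δ).pr h x =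
    ((x (h none + ∑ i, h (some (i, true)) + δ) : ℝ) * ∏ i : Fin K, (x (h none + h (some (i, false))) : ℝ)) *
      ((x (h none) : ℝ) * ∏ i : Fin K, (x (h none + h (some (i, true)) + h (some (i, false))) : ℝ)) := by
  show ∏ p : Option (Option (Fin K × Bool)), (x ((cfg K hK δ).L h p) : ℝ) = _
  rw [Fintype.prod_option, Fintype.prod_option, Fintype.prod_prod_type]
  simp only [Fintype.prod_bool]
  rw [prod_mul_distrib, cfg_L0, cfg_L1]
  simp only [cfg_L2, cfg_L3]
  ring

end

open Classical in
/-- the weight: all points are in the window -/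
noncomputable def wgt (K : ℕ) (hK : 1 ≤ K) (δ : ℤ) (H : ℕ) (h : (cfg K hK δ).C → ℤ) : ℝ :=
  if ∀ p, 0 ≤ (cfg K hK δ).L h p ∧ (cfg K hK δ).L h p < H then 1 else 0

lemma wgt_le (K : ℕ) (hK : 1 ≤ K) (δ : ℤ) (H : ℕ) (h : (cfg K hK δ).C → ℤ) : |wgt K hK δ H h| ≤ 1 := by
  unfold wgt
  split_ifs <;> simp

lemma card_cfg (K : ℕ) (hK : 1 ≤ K) (δ : ℤ) : Fintype.card (cfg K hK δ).C = 2 * K + 1 := by
  show Fintype.card (Option (Fin K × Bool)) = _
  rw [Fintype.card_option, Fintype.card_prod, Fintype.card_fin, Fintype.card_bool]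
  ring

/-- reindexing -/
lemma reindex (K : ℕ) (hK : 1 ≤ K) (Δ : ℤ) (H : ℕ) (x : X) :
    ∑ q ∈ (Tu K H ×ˢ Tu K H).filter (fun q => ∑ i, q.1 i - ∑ i, q.2 i + Δ = 0),
        (∏ i, (x (q.1 i) : ℝ)) * ∏ i, (x (q.2 i) : ℝ) =
      ∑ h ∈ Box (cfg K hK (-Δ)).C H, wgt K hK (-Δ) H h * (cfg K hK (-Δ)).pr h x := by
  classical
  have e0 : ∑ h ∈ Box (cfg K hK (-Δ)).C H, wgt K hK (-Δ) H h * (cfg K hK (-Δ)).pr h x =
      ∑ h ∈ (Box (cfg K hK (-Δ)).C H).filter (fun h => ∀ p, 0 ≤ (cfg K hK (-Δ)).L h p ∧ (cfg K hK (-Δ)).L h p < H),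
        (cfg K hK (-Δ)).pr h x := by
    rw [sum_filter]
    apply sum_congr rfl
    intro h _
    unfold wgt
    split_ifs <;> simp
  rw [e0]
  refine sum_nbij' (fun q : (Option (Fin K) → ℤ) × (Option (Fin K) → ℤ) =>
      (fun i : Option (Fin K × Bool) => match i with
        | none => q.2 none
        | some (i, false) => q.1 (some i) - q.2 none
        | some (i, true) => q.2 (some i) - q.1 (some i)))
    (fun h : Option (Fin K × Bool) → ℤ => ((fun i : Option (Fin K) => match i with
        | none => h none + ∑ i, h (some (i, true)) + (-Δ)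
        | some i => h none + h (some (i, false))), (fun i : Option (Fin K) => match i with
        | none => h none
        | some i => h none + h (some (i, true)) + h (some (i, false))))) ?_ ?_ ?_ ?_ ?_
  · rintro ⟨u, v⟩ hq
    rw [mem_filter, mem_product] at hq
    obtain ⟨⟨hu, hv⟩, hr⟩ := hq
    unfold Tu at hu hv
    rw [Fintype.mem_piFinset] at hu hv
    simp only at hu hv hr
    rw [Fintype.sum_option, Fintype.sum_option] at hr
    have hu' : ∀ i, 0 ≤ u i ∧ u i < H := fun i => mem_Ico.1 (hu i)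
    have hv' : ∀ i, 0 ≤ v i ∧ v i < H := fun i => mem_Ico.1 (hv i)
    refine mem_filter.2 ⟨?_, ?_⟩
    · unfold Box
      refine Fintype.mem_piFinset.2 fun i => ?_
      rcases i with _ | ⟨i, _ | _⟩
      · have := hv' none
        simp only [mem_Ioo]
        omega
      · have h1 := hv' none
        have h2 := hu' (some i)
        simp only [mem_Ioo]
        omega
      · have h1 := hv' (some i)
        have h2 := hu' (some i)
        simp only [mem_Ioo]
        omega
    · intro p
      rcases p with _ | _ | ⟨i, _ | _⟩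
      · rw [cfg_L0]
        exact hv' none
      · rw [cfg_L1]
        simp only
        rw [sum_sub_distrib]
        have h1 : v none + (∑ i : Fin K, v (some i) - ∑ i : Fin K, u (some i)) + -Δ = u none := by linarith
        rw [h1]
        exact hu' none
      · rw [cfg_L2]
        simp only
        have h1 : v none + (u (some i) - v none) = u (some i) := by ring
        rw [h1]
        exact hu' _
      · rw [cfg_L3]
        simp only
        have h1 : v none + (v (some i) - u (some i)) + (u (some i) - v none) = v (some i) := by ring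
        rw [h1]
        exact hv' _
  · intro h hh
    rw [mem_filter] at hh
    obtain ⟨-, hh⟩ := hh
    have h0 := hh none
    have h1 := hh (some none)
    have h2 := fun i : Fin K => hh (some (some (i, false)))
    have h3 := fun i : Fin K => hh (some (some (i, true)))
    rw [cfg_L0 hK (-Δ) h] at h0
    rw [cfg_L1 hK (-Δ) h] at h1
    have h2' : ∀ i : Fin K, 0 ≤ h none + h (some (i, false)) ∧ h none + h (some (i, false)) < H := by
      intro i
      have := h2 i
      rw [cfg_L2 hK (-Δ) h] at this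
      exact this
    have h3' : ∀ i : Fin K, 0 ≤ h none + h (some (i, true)) + h (some (i, false)) ∧
        h none + h (some (i, true)) + h (some (i, false)) < H := by
      intro i
      have := h3 i
      rw [cfg_L3 hK (-Δ) h] at this
      exact this
    rw [mem_filter, mem_product]
    refine ⟨⟨?_, ?_⟩, ?_⟩
    · unfold Tu
      rw [Fintype.mem_piFinset]
      intro i
      rcases i with _ | i
      · exact mem_Ico.2 h1
      · exact mem_Ico.2 (h2' i)
    · unfold Tu
      rw [Fintype.mem_piFinset]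
      intro i
      rcases i with _ | i
      · exact mem_Ico.2 h0
      · exact mem_Ico.2 (h3' i)
    · rw [Fintype.sum_option, Fintype.sum_option]
      simp only [sum_add_distrib]
      ring
  · rintro ⟨u, v⟩ hq
    rw [mem_filter, mem_product] at hq
    obtain ⟨⟨hu, hv⟩, hr⟩ := hq
    simp only at hr
    rw [Fintype.sum_option, Fintype.sum_option] at hr
    refine Prod.ext ?_ ?_
    · funext i
      rcases i with _ | i
      · simp only
        rw [sum_sub_distrib]
        linarith
      · simp only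
        ring
    · funext i
      rcases i with _ | i
      · rfl
      · simp only
        ring
  · intro h _
    funext i
    rcases i with _ | ⟨i, _ | _⟩
    · rfl
    · simp only
      ring
    · simp only
      ring
  · rintro ⟨u, v⟩ hq
    rw [mem_filter, mem_product] at hq
    obtain ⟨⟨hu, hv⟩, hr⟩ := hq
    simp only at hr
    rw [Fintype.sum_option, Fintype.sum_option] at hr
    rw [cfg_pr]
    simp only
    rw [Fintype.prod_option, Fintype.prod_option, sum_sub_distrib]
    have h1 : v none + (∑ i : Fin K, v (some i) - ∑ i : Fin K, u (some i)) + -Δ = u none := by linarith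
    rw [h1]
    have h2 : ∀ i, v none + (u (some i) - v none) = u (some i) := fun i => by ring
    have h3 : ∀ i, v none + (v (some i) - u (some i)) + (u (some i) - v none) = v (some i) := fun i => by ring
    simp only [h2, h3]

/-- the moments of the local Fourier transform -/
noncomputable def D (K : ℕ) (Δ : ℤ) (H : ℕ) (x : X) : ℂ :=
  H * ∫ α : UnitAddCircle, (fourier Δ α : ℂ) * ((‖S H x α / H‖ ^ (2 * (K + 1)) : ℝ) : ℂ)

lemma D_eq (K : ℕ) (hK : 1 ≤ K) (Δ : ℤ) (H : ℕ) (x : X) :
    D K Δ H x = ((Tm (cfg K hK (-Δ)) (wgt K hK (-Δ)) H x : ℝ) : ℂ) := by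
  unfold D Tm
  rw [card_cfg]
  rcases Nat.eq_zero_or_pos H with h0 | h0
  · subst h0
    rw [Nat.cast_zero, zero_mul, Nat.cast_zero, zero_pow (by omega), div_zero, zero_mul, Complex.ofReal_zero]
  have hH : (0 : ℝ) < H := by exact_mod_cast h0
  have e1 : ∀ α : UnitAddCircle, (fourier Δ α : ℂ) * ((‖S H x α / H‖ ^ (2 * (K + 1)) : ℝ) : ℂ) =
      (((1 / (H : ℝ) ^ (2 * (K + 1)) : ℝ)) : ℂ) * ((fourier Δ α : ℂ) * ((‖S H x α‖ ^ (2 * (K + 1)) : ℝ) : ℂ)) := by
    intro α
    have h2 : ‖S H x α / H‖ ^ (2 * (K + 1)) = (1 / (H : ℝ) ^ (2 * (K + 1))) * ‖S H x α‖ ^ (2 * (K + 1)) := by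
      rw [norm_div, Complex.norm_natCast, div_pow]
      ring
    rw [h2]
    push_cast
    ring
  simp only [e1]
  rw [integral_const_mul, S_int, reindex K hK]
  rw [← mul_assoc, ← Complex.ofReal_natCast, ← Complex.ofReal_mul, ← Complex.ofReal_mul]
  congr 2
  rw [show 2 * (K + 1) = (2 * K + 1) + 1 by ring, pow_succ]
  field_simp

lemma D_mem (K : ℕ) (hK : 1 ≤ K) (Δ : ℤ) (hΔ : Δ ≠ 0) : (fun H x => (D K Δ H x).re) ∈ DT := by
  refine ⟨cfg K hK (-Δ), wgt K hK (-Δ), wgt_le K hK (-Δ), ⟨some none, ?_, ?_⟩, ?_⟩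
  · show -Δ ≠ 0
    omega
  · intro p hp
    rcases p with _ | _ | ⟨i, _ | _⟩
    · rfl
    · exact absurd rfl hp
    · rfl
    · rfl
  · funext H x
    rw [D_eq K hK, Complex.ofReal_re]

lemma D_zero_mem (K : ℕ) (hK : 1 ≤ K) : (fun H x => (D K 0 H x).re) ∈ UT := by
  refine ⟨cfg K hK (-0), wgt K hK (-0), wgt_le K hK (-0), ?_, ?_⟩
  · intro p
    rcases p with _ | _ | ⟨i, _ | _⟩
    · rfl
    · rfl
    · rfl
    · rfl
  · funext H x
    rw [D_eq K hK, Complex.ofReal_re]

lemma D_im (K : ℕ) (hK : 1 ≤ K) (Δ : ℤ) (H : ℕ) (x : X) : (D K Δ H x).im = 0 := by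
  rw [D_eq K hK, Complex.ofReal_im]

/-- the sum is at most the length of the window -/
lemma S_le (H : ℕ) (x : X) (α : UnitAddCircle) : ‖S H x α‖ ≤ H := by
  unfold S
  refine (norm_sum_le _ _).trans ?_
  refine (sum_le_card_nsmul _ _ 1 fun z _ => ?_).trans ?_
  · rw [norm_mul, Complex.norm_real, Real.norm_eq_abs]
    have h1 : ‖(fourier z α : ℂ)‖ = 1 := by
      rw [fourier_apply]
      exact Circle.norm_coe _
    rw [h1, mul_one]
    exact val_le _
  · rw [nsmul_eq_mul, mul_one, Int.card_Ico]
    simp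

/-- Parseval -/
lemma S_two (H : ℕ) (x : X) : ∫ α : UnitAddCircle, ‖S H x α‖ ^ 2 ≤ H := by
  have h1 : ((∫ α : UnitAddCircle, ‖S H x α‖ ^ 2 : ℝ) : ℂ) =
      ((∑ q ∈ (Tu 0 H ×ˢ Tu 0 H).filter (fun q => ∑ i, q.1 i - ∑ i, q.2 i + 0 = 0),
        (∏ i, (x (q.1 i) : ℝ)) * ∏ i, (x (q.2 i) : ℝ) : ℝ) : ℂ) := by
    rw [← S_int 0 H 0 x, ← integral_complex_ofReal]
    congr 1
    funext α
    rw [fourier_zero, one_mul]
  have h2 : ∫ α : UnitAddCircle, ‖S H x α‖ ^ 2 =
      ∑ q ∈ (Tu 0 H ×ˢ Tu 0 H).filter (fun q => ∑ i, q.1 i - ∑ i, q.2 i + 0 = 0),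
        (∏ i, (x (q.1 i) : ℝ)) * ∏ i, (x (q.2 i) : ℝ) := by exact_mod_cast h1
  rw [h2]
  have h3 : ∀ q ∈ (Tu 0 H ×ˢ Tu 0 H).filter (fun q => ∑ i, q.1 i - ∑ i, q.2 i + 0 = 0),
      (∏ i, (x (q.1 i) : ℝ)) * ∏ i, (x (q.2 i) : ℝ) ≤ 1 := by
    intro q _
    have h4 : |(∏ i, (x (q.1 i) : ℝ)) * ∏ i, (x (q.2 i) : ℝ)| ≤ 1 := by
      rw [abs_mul, abs_prod, abs_prod]
      exact mul_le_one₀ (prod_le_one (fun _ _ => abs_nonneg _) fun _ _ => val_le _)
        (prod_nonneg fun _ _ => abs_nonneg _) (prod_le_one (fun _ _ => abs_nonneg _) fun _ _ => val_le _)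
    exact (le_abs_self _).trans h4
  refine (sum_le_card_nsmul _ _ 1 h3).trans ?_
  rw [nsmul_eq_mul, mul_one]
  have h5 : ((Tu 0 H ×ˢ Tu 0 H).filter (fun q => ∑ i, q.1 i - ∑ i, q.2 i + 0 = 0)).card ≤ (Ico (0 : ℤ) H).card := by
    apply card_le_card_of_injOn (fun q => q.1 none)
    · intro q hq
      rw [mem_coe, mem_filter, mem_product] at hq
      have := hq.1.1
      unfold Tu at this
      rw [Fintype.mem_piFinset] at this
      exact this none
    · intro q hq q' hq' hqq
      rw [mem_coe, mem_filter] at hq hq'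
      have h6 := hq.2
      have h7 := hq'.2
      rw [Fintype.sum_option, Fintype.sum_option, Fintype.sum_empty, Fintype.sum_empty] at h6 h7
      have h8 : q.1 none = q'.1 none := hqq
      refine Prod.ext ?_ ?_
      · funext i
        rcases i with _ | i
        · exact h8
        · exact i.elim0
      · funext i
        rcases i with _ | i
        · linarith
        · exact i.elim0
  rw [Int.card_Ico] at h5
  have h6 : ((((Tu 0 H ×ˢ Tu 0 H).filter (fun q => ∑ i, q.1 i - ∑ i, q.2 i + 0 = 0)).card : ℕ) : ℝ) ≤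
      (((H : ℤ) - 0).toNat : ℝ) := by exact_mod_cast h5
  refine h6.trans (le_of_eq ?_)
  simp

end Pool.Agent.Helper47.Law
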