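import Pool.Agent.Helper47.Law.Four

/-!
# The law of the local frequencies (helper47)
-/

set_option autoImplicit false

open Finset MeasureTheory Filter Topology
open scoped ComplexConjugate

namespace Pool.Agent.Helper47.Law

open Pool.Agent.Results.MP_4a7640_nt.DisplacedCubes (Val X shift seq IsFurstenbergSystem IsMult Aperiodic cube
  val_le mean_int)

/-- the local Fourier transform -/
noncomputable def F (H : ℕ) (x : X) (α : UnitAddCircle) : ℂ := S H x α / H

lemma F_cont (H : ℕ) (x : X) : Continuous (F H x) := by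
  unfold F
  exact (S_cont H x).div_const _

lemma F_cont2 (H : ℕ) : Continuous (fun q : X × UnitAddCircle => F H q.1 q.2) := by
  unfold F S
  refine Continuous.div_const (continuous_finsetSum _ fun z _ => ?_) _
  refine Continuous.mul ?_ ((ContinuousMap.continuous _).comp continuous_snd)
  exact Complex.continuous_ofReal.comp (continuous_subtype_val.comp ((continuous_apply z).comp continuous_fst))

lemma F_le (H : ℕ) (x : X) (α : UnitAddCircle) : ‖F H x α‖ ≤ 1 := by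
  unfold F
  rw [norm_div, Complex.norm_natCast]
  exact div_le_one_of_le₀ (S_le H x α) (Nat.cast_nonneg H)

lemma F_two (H : ℕ) (x : X) : (H : ℝ) * ∫ α : UnitAddCircle, ‖F H x α‖ ^ 2 ≤ 1 := by
  rcases Nat.eq_zero_or_pos H with h0 | h0
  · subst h0
    simp
  have hH : (0 : ℝ) < H := by exact_mod_cast h0
  have e1 : ∀ α : UnitAddCircle, ‖F H x α‖ ^ 2 = (1 / (H : ℝ) ^ 2) * ‖S H x α‖ ^ 2 := by
    intro α
    unfold F
    rw [norm_div, Complex.norm_natCast, div_pow]
    ring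
  simp only [e1]
  rw [integral_const_mul]
  have h1 := S_two H x
  calc (H : ℝ) * (1 / (H : ℝ) ^ 2 * ∫ α : UnitAddCircle, ‖S H x α‖ ^ 2) ≤ (H : ℝ) * (1 / (H : ℝ) ^ 2 * H) := by
        apply mul_le_mul_of_nonneg_left _ hH.le
        exact mul_le_mul_of_nonneg_left h1 (by positivity)
    _ = 1 := by field_simp

/-- higher moments -/
lemma F_mom (k : ℕ) (H : ℕ) (x : X) : (H : ℝ) * ∫ α : UnitAddCircle, ‖F H x α‖ ^ (k + 2) ≤ 1 := by
  refine le_trans ?_ (F_two H x)
  apply mul_le_mul_of_nonneg_left _ (Nat.cast_nonneg H)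
  apply integral_mono
  · exact cont_int_r ((F_cont H x).norm.pow _)
  · exact cont_int_r ((F_cont H x).norm.pow _)
  · intro α
    simp only
    rw [pow_add]
    exact mul_le_of_le_one_left (by positivity) (pow_le_one₀ (norm_nonneg _) (F_le H x α))

open Polynomial in
/-- trigonometric and algebraic polynomials -/
lemma trig_poly (A : Finset ℤ) (hA : (0 : ℤ) ∉ A) (c : ℤ → ℂ) (p : ℝ[X]) :
    (fun (H : ℕ) (x : X) => ((H : ℂ) * ∫ α : UnitAddCircle, (∑ Δ ∈ A, c Δ * (fourier Δ α : ℂ)) *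
      ((‖F H x α‖ ^ 4 * p.eval (‖F H x α‖ ^ 2) : ℝ) : ℂ)).re) ∈ Submodule.span ℝ DT := by
  have e1 : (fun (H : ℕ) (x : X) => ((H : ℂ) * ∫ α : UnitAddCircle, (∑ Δ ∈ A, c Δ * (fourier Δ α : ℂ)) *
      ((‖F H x α‖ ^ 4 * p.eval (‖F H x α‖ ^ 2) : ℝ) : ℂ)).re) =
      ∑ Δ ∈ A, ∑ j ∈ range (p.natDegree + 1), ((c Δ).re * p.coeff j) • (fun H x => (D (j + 1) Δ H x).re) := by
    funext H x
    rw [Finset.sum_apply, Finset.sum_apply]
    simp only [Finset.sum_apply, Pi.smul_apply, smul_eq_mul]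
    have e2 : ∀ α : UnitAddCircle, (∑ Δ ∈ A, c Δ * (fourier Δ α : ℂ)) *
        ((‖F H x α‖ ^ 4 * p.eval (‖F H x α‖ ^ 2) : ℝ) : ℂ) =
        ∑ Δ ∈ A, ∑ j ∈ range (p.natDegree + 1), (c Δ * (p.coeff j : ℝ)) *
          ((fourier Δ α : ℂ) * ((‖S H x α / H‖ ^ (2 * (j + 1 + 1)) : ℝ) : ℂ)) := by
      intro α
      rw [eval_eq_sum_range, sum_mul]
      apply sum_congr rfl
      intro Δ _
      rw [mul_sum, Complex.ofReal_sum, mul_sum]
      apply sum_congr rfl
      intro j _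
      have e3 : ‖F H x α‖ ^ 4 * (p.coeff j * (‖F H x α‖ ^ 2) ^ j) = p.coeff j * ‖S H x α / H‖ ^ (2 * (j + 1 + 1)) := by
        unfold F
        rw [← pow_mul]
        ring
      rw [e3]
      push_cast
      ring
    simp only [e2]
    have hc : ∀ (Δ : ℤ) (j : ℕ), Integrable (fun α : UnitAddCircle => (c Δ * (p.coeff j : ℝ)) *
          ((fourier Δ α : ℂ) * ((‖S H x α / H‖ ^ (2 * (j + 1 + 1)) : ℝ) : ℂ))) := by
      intro Δ j
      apply cont_int
      exact continuous_const.mul ((ContinuousMap.continuous _).mul (Complex.continuous_ofReal.comp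
        (((S_cont H x).div_const _).norm.pow _)))
    rw [integral_finsetSum _ (fun Δ _ => integrable_finsetSum _ fun j _ => hc Δ j), mul_sum, Complex.re_sum]
    apply sum_congr rfl
    intro Δ _
    rw [integral_finsetSum _ (fun j _ => hc Δ j), mul_sum, Complex.re_sum]
    apply sum_congr rfl
    intro j _
    rw [integral_const_mul]
    have e4 : (H : ℂ) * ((c Δ * (p.coeff j : ℝ)) * ∫ α : UnitAddCircle,
        ((fourier Δ α : ℂ) * ((‖S H x α / H‖ ^ (2 * (j + 1 + 1)) : ℝ) : ℂ))) =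
        (c Δ * (p.coeff j : ℝ)) * D (j + 1) Δ H x := by
      unfold D
      ring
    rw [e4, Complex.mul_re, D_im (j + 1) (by omega), mul_zero, sub_zero, Complex.re_mul_ofReal]
  rw [e1]
  refine Submodule.sum_mem _ fun Δ hΔ => Submodule.sum_mem _ fun j _ => Submodule.smul_mem _ _ ?_
  exact Submodule.subset_span (D_mem (j + 1) (by omega) Δ (fun h => hA (h ▸ hΔ)))

/-- the law of the frequencies, minus its mean -/
noncomputable def E (G : C(UnitAddCircle, ℝ)) (ψ : C(ℝ, ℝ)) (H : ℕ) (x : X) : ℝ :=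
  (H : ℝ) * ∫ α : UnitAddCircle, (G α - ∫ β : UnitAddCircle, G β) * (‖F H x α‖ ^ 4 * ψ ‖F H x α‖)

open Polynomial in
lemma E_app (G : C(UnitAddCircle, ℝ)) (ψ : C(ℝ, ℝ)) (ε : ℝ) (hε : 0 < ε) :
    ∃ M ∈ Submodule.span ℝ DT, ∀ H x, |E G ψ H x - M H x| ≤ ε := by
  classical
  -- the centred function
  set m : ℝ := ∫ β : UnitAddCircle, G β with hm
  set G0 : C(UnitAddCircle, ℂ) := ⟨fun α => ((G α - m : ℝ) : ℂ),
    Complex.continuous_ofReal.comp (G.continuous.sub continuous_const)⟩ with hG0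
  have hG0i : ∫ α : UnitAddCircle, G0 α = 0 := by
    show ∫ α : UnitAddCircle, ((G α - m : ℝ) : ℂ) = 0
    rw [integral_complex_ofReal, integral_sub (cont_int_r G.continuous) (integrable_const _), integral_const]
    have : (volume : Measure UnitAddCircle).real Set.univ = 1 := by
      rw [vol_eq]
      exact probReal_univ
    rw [this, one_smul, ← hm, sub_self, Complex.ofReal_zero]
  -- a bound
  obtain ⟨B₁, hB₁⟩ := (isCompact_Icc (a := (0 : ℝ)) (b := 1)).exists_bound_of_continuousOn ψ.continuous.continuousOn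
  set B : ℝ := max ‖G0‖ (max B₁ 1) with hB
  have hB1 : 1 ≤ B := (le_max_right _ _).trans (le_max_right _ _)
  have hBG : ∀ α, ‖G0 α‖ ≤ B := fun α => (G0.norm_coe_le_norm α).trans (le_max_left _ _)
  have hBψ : ∀ t ∈ Set.Icc (0 : ℝ) 1, |ψ t| ≤ B := fun t ht =>
    (hB₁ t ht).trans ((le_max_left _ _).trans (le_max_right _ _))
  set η : ℝ := min 1 (ε / (5 * B)) with hη
  have hη0 : 0 < η := by positivity
  have hη1 : η ≤ 1 := min_le_left _ _
  have hη2 : η * (5 * B) ≤ ε := by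
    have := min_le_right 1 (ε / (5 * B))
    rw [← hη, le_div_iff₀ (by positivity)] at this
    exact this
  -- the polynomial
  obtain ⟨p, hp⟩ := exists_polynomial_near_of_continuousOn 0 1 (fun t => ψ (√t))
    (ψ.continuous.comp Real.continuous_sqrt).continuousOn η hη0
  have hpF : ∀ H x (α : UnitAddCircle), |p.eval (‖F H x α‖ ^ 2) - ψ ‖F H x α‖| ≤ η := by
    intro H x α
    have h1 := hp (‖F H x α‖ ^ 2) ⟨by positivity, pow_le_one₀ (norm_nonneg _) (F_le H x α)⟩
    rw [Real.sqrt_sq (norm_nonneg _)] at h1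
    exact h1.le
  -- the trigonometric polynomial
  have hcl : G0 ∈ (Submodule.span ℂ (Set.range (@fourier 1))).topologicalClosure := by
    rw [span_fourier_closure_eq_top]
    exact Submodule.mem_top
  have hcl' : G0 ∈ closure ((Submodule.span ℂ (Set.range (@fourier 1)) : Submodule ℂ C(UnitAddCircle, ℂ)) :
      Set C(UnitAddCircle, ℂ)) := hcl
  rw [Metric.mem_closure_iff] at hcl'
  obtain ⟨T, hT, hGT⟩ := hcl' η hη0
  rw [SetLike.mem_coe, Finsupp.mem_span_range_iff_exists_finsupp] at hT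
  obtain ⟨c, hc⟩ := hT
  have hTe : ∀ α, T α = ∑ Δ ∈ c.support, c Δ * (fourier Δ α : ℂ) := by
    intro α
    rw [← hc, Finsupp.sum, ContinuousMap.coe_sum, Finset.sum_apply]
    rfl
  have hGT' : ∀ α, ‖G0 α - T α‖ ≤ η := by
    intro α
    have h1 := ContinuousMap.dist_apply_le_dist (f := G0) (g := T) α
    rw [dist_eq_norm] at h1
    exact h1.trans hGT.le
  -- the zeroth coefficient
  have hTi : ∫ α : UnitAddCircle, T α = c 0 := by
    simp only [hTe]
    have hint : ∀ Δ ∈ c.support, Integrable (fun α : UnitAddCircle => c Δ * (fourier Δ α : ℂ)) :=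
      fun Δ _ => cont_int (continuous_const.mul (ContinuousMap.continuous _))
    rw [integral_finsetSum _ hint]
    simp only [integral_const_mul, int_fourier]
    rw [sum_eq_single 0]
    · simp
    · intro Δ _ h
      rw [if_neg h, mul_zero]
    · intro h
      rw [Finsupp.notMem_support_iff.1 h, zero_mul]
  have hc0 : ‖c 0‖ ≤ η := by
    have h1 : c 0 = ∫ α : UnitAddCircle, (T α - G0 α) := by
      rw [integral_sub (cont_int T.continuous) (cont_int G0.continuous), hTi, hG0i, sub_zero]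
    rw [h1]
    have h2 : ‖∫ α : UnitAddCircle, (T α - G0 α)‖ ≤ η * (volume : Measure UnitAddCircle).real Set.univ :=
      norm_integral_le_of_norm_le_const (Eventually.of_forall fun α => by rw [norm_sub_rev]; exact hGT' α)
    rw [vol_eq, probReal_univ, mul_one] at h2
    rw [vol_eq]
    exact h2
  set A : Finset ℤ := c.support.erase 0 with hA
  have hTA : ∀ α, ∑ Δ ∈ A, c Δ * (fourier Δ α : ℂ) = T α - c 0 := by
    intro α
    rw [hTe, hA]
    by_cases h : (0 : ℤ) ∈ c.support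
    · rw [← add_sum_erase _ _ h, fourier_zero]
      ring
    · rw [erase_eq_of_notMem h, Finsupp.notMem_support_iff.1 h, sub_zero]
  have hGA : ∀ α, ‖G0 α - ∑ Δ ∈ A, c Δ * (fourier Δ α : ℂ)‖ ≤ 2 * η := by
    intro α
    rw [hTA]
    have h1 : G0 α - (T α - c 0) = (G0 α - T α) + c 0 := by ring
    rw [h1]
    exact (norm_add_le _ _).trans (by linarith [hGT' α])
  refine ⟨_, trig_poly A (notMem_erase _ _) c p, fun H x => ?_⟩
  -- the error
  have hcF := F_cont H x
  have e1 : E G ψ H x = ((H : ℂ) * ∫ α : UnitAddCircle, G0 α * ((‖F H x α‖ ^ 4 * ψ ‖F H x α‖ : ℝ) : ℂ)).re := by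
    have e2 : ∀ α : UnitAddCircle, G0 α * ((‖F H x α‖ ^ 4 * ψ ‖F H x α‖ : ℝ) : ℂ) =
        (((G α - m) * (‖F H x α‖ ^ 4 * ψ ‖F H x α‖) : ℝ) : ℂ) := by
      intro α
      show ((G α - m : ℝ) : ℂ) * _ = _
      push_cast
      ring
    simp only [e2]
    rw [integral_complex_ofReal, ← Complex.ofReal_natCast, ← Complex.ofReal_mul, Complex.ofReal_re]
    rfl
  have hi1 : Integrable (fun α : UnitAddCircle => G0 α * ((‖F H x α‖ ^ 4 * ψ ‖F H x α‖ : ℝ) : ℂ)) :=
    cont_int (G0.continuous.mul (Complex.continuous_ofReal.comp ((hcF.norm.pow 4).mul (ψ.continuous.comp hcF.norm))))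
  have hcA : Continuous (fun α : UnitAddCircle => ∑ Δ ∈ A, c Δ * (fourier Δ α : ℂ)) :=
    continuous_finsetSum _ fun Δ _ => continuous_const.mul (ContinuousMap.continuous _)
  have hi2 : Integrable (fun α : UnitAddCircle => (∑ Δ ∈ A, c Δ * (fourier Δ α : ℂ)) *
      ((‖F H x α‖ ^ 4 * p.eval (‖F H x α‖ ^ 2) : ℝ) : ℂ)) :=
    cont_int (hcA.mul (Complex.continuous_ofReal.comp ((hcF.norm.pow 4).mul (p.continuous.comp (hcF.norm.pow 2)))))
  have hpt : ∀ α : UnitAddCircle, ‖G0 α * ((‖F H x α‖ ^ 4 * ψ ‖F H x α‖ : ℝ) : ℂ) -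
      (∑ Δ ∈ A, c Δ * (fourier Δ α : ℂ)) * ((‖F H x α‖ ^ 4 * p.eval (‖F H x α‖ ^ 2) : ℝ) : ℂ)‖ ≤
      ‖F H x α‖ ^ 4 * ε := by
    intro α
    set t := ‖F H x α‖ with ht
    set q := p.eval (t ^ 2) with hq
    set g := ∑ Δ ∈ A, c Δ * (fourier Δ α : ℂ) with hg
    have h1 : G0 α * ((t ^ 4 * ψ t : ℝ) : ℂ) - g * ((t ^ 4 * q : ℝ) : ℂ) =
        ((t ^ 4 : ℝ) : ℂ) * (G0 α * (((ψ t - q : ℝ)) : ℂ) + (G0 α - g) * ((q : ℝ) : ℂ)) := by
      push_cast
      ring
    rw [h1, norm_mul, Complex.norm_real, Real.norm_eq_abs, abs_of_nonneg (by positivity)]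
    apply mul_le_mul_of_nonneg_left _ (by positivity)
    have h2 : |ψ t - q| ≤ η := by
      rw [abs_sub_comm]
      exact hpF H x α
    have h3 : |q| ≤ B + η := by
      have h4 := hBψ t ⟨norm_nonneg _, F_le H x α⟩
      have h5 := abs_sub_abs_le_abs_sub q (ψ t)
      have h6 := hpF H x α
      linarith
    refine (norm_add_le _ _).trans ?_
    rw [norm_mul, norm_mul, Complex.norm_real, Complex.norm_real, Real.norm_eq_abs, Real.norm_eq_abs]
    have h7 : ‖G0 α‖ * |ψ t - q| ≤ B * η := mul_le_mul (hBG α) h2 (abs_nonneg _) (by linarith)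
    have h8 : ‖G0 α - g‖ * |q| ≤ 2 * η * (B + η) := mul_le_mul (hGA α) h3 (abs_nonneg _) (by positivity)
    have h9 : η * η ≤ η * B := mul_le_mul_of_nonneg_left (hη1.trans hB1) hη0.le
    linarith
  rw [e1, ← Complex.sub_re, ← mul_sub, ← integral_sub hi1 hi2]
  refine (Complex.abs_re_le_norm _).trans ?_
  rw [norm_mul, Complex.norm_natCast]
  have h9 : ‖∫ α : UnitAddCircle, (G0 α * ((‖F H x α‖ ^ 4 * ψ ‖F H x α‖ : ℝ) : ℂ) -
      (∑ Δ ∈ A, c Δ * (fourier Δ α : ℂ)) * ((‖F H x α‖ ^ 4 * p.eval (‖F H x α‖ ^ 2) : ℝ) : ℂ))‖ ≤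
      ∫ α : UnitAddCircle, ‖F H x α‖ ^ 4 * ε :=
    norm_integral_le_of_norm_le (cont_int_r ((hcF.norm.pow 4).mul continuous_const)) (Eventually.of_forall hpt)
  rw [integral_mul_const] at h9
  have h10 := F_mom 2 H x
  calc (H : ℝ) * _ ≤ (H : ℝ) * ((∫ α : UnitAddCircle, ‖F H x α‖ ^ 4) * ε) :=
        mul_le_mul_of_nonneg_left h9 (Nat.cast_nonneg H)
    _ = ((H : ℝ) * ∫ α : UnitAddCircle, ‖F H x α‖ ^ 4) * ε := by ring
    _ ≤ 1 * ε := mul_le_mul_of_nonneg_right h10 hε.le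
    _ = ε := one_mul ε

lemma E_cont (G : C(UnitAddCircle, ℝ)) (ψ : C(ℝ, ℝ)) (H : ℕ) : Continuous (E G ψ H) := by
  unfold E
  refine continuous_const.mul ?_
  have h1 : Continuous (fun q : X × UnitAddCircle => (G q.2 - ∫ β : UnitAddCircle, G β) *
      (‖F H q.1 q.2‖ ^ 4 * ψ ‖F H q.1 q.2‖)) := by
    have h2 := (F_cont2 H).norm
    exact ((G.continuous.comp continuous_snd).sub continuous_const).mul ((h2.pow 4).mul (ψ.continuous.comp h2))
  have h3 := continuous_parametric_integral_of_continuous (X := X) (Y := UnitAddCircle)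
    (μ := (volume : Measure UnitAddCircle)) (f := fun x α => (G α - ∫ β : UnitAddCircle, G β) *
      (‖F H x α‖ ^ 4 * ψ ‖F H x α‖)) h1 (s := Set.univ) isCompact_univ
  simpa using h3

/-- **the law of the frequencies** -/
theorem law {f : ℕ → Val} (hf : IsMult f) (ha : Aperiodic f) {μ : Measure X} (hμ : IsFurstenbergSystem f μ)
    {r : ℕ} (W : Fin r → ℕ → X → ℝ) (hW : ∀ j, W j ∈ UT1) (Ψ : C(Fin r → ℝ, ℝ)) (G : C(UnitAddCircle, ℝ))
    (ψ : C(ℝ, ℝ)) : Tendsto (fun H : ℕ => ∫ x, Ψ (fun j => W j H x) * E G ψ H x ∂μ) atTop (𝓝 0) := by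
  have hprob : IsProbabilityMeasure μ := hμ.1
  have hWc : ∀ j H, Continuous (W j H) := by
    intro j H
    obtain ⟨⟨c, w, _, _, he⟩, -⟩ := hW j
    rw [he]
    exact tm_cont c w H
  -- a bound for the weight
  obtain ⟨B, hB⟩ := (isCompact_Icc (a := (fun _ => -1 : Fin r → ℝ)) (b := fun _ => 1)).exists_bound_of_continuousOn
    Ψ.continuous.continuousOn
  have hBW : ∀ H x, |Ψ (fun j => W j H x)| ≤ B := by
    intro H x
    apply hB
    rw [Set.mem_Icc]
    exact ⟨fun j => (abs_le.1 ((hW j).2 H x)).1, fun j => (abs_le.1 ((hW j).2 H x)).2⟩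
  have hB0 : 0 ≤ B := (abs_nonneg _).trans (hBW 0 (fun _ => ⟨0, by simp⟩))
  rw [Metric.tendsto_atTop]
  intro ε hε
  obtain ⟨M, hM, hEM⟩ := E_app G ψ (ε / (2 * (B + 1))) (by positivity)
  obtain ⟨hMc, ⟨C, hMC⟩, -⟩ := span_small hf ha hμ hM
  obtain ⟨N, hN⟩ := (Metric.tendsto_atTop.1 (stat_small hf ha hμ W hW Ψ hM)) (ε / 2) (by positivity)
  refine ⟨N, fun H hH => ?_⟩
  have h1 := hN H hH
  rw [Real.dist_eq, sub_zero] at h1 ⊢
  have hΨc : Continuous (fun x => Ψ (fun j => W j H x)) := Ψ.continuous.comp (continuous_pi fun j => hWc j H)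
  have hi1 : Integrable (fun x => Ψ (fun j => W j H x) * E G ψ H x) μ := by
    refine Integrable.of_bound (hΨc.mul (E_cont G ψ H)).aestronglyMeasurable (B * (C + ε / (2 * (B + 1))))
      (Eventually.of_forall fun x => ?_)
    rw [norm_mul, Real.norm_eq_abs, Real.norm_eq_abs]
    refine mul_le_mul (hBW H x) ?_ (abs_nonneg _) hB0
    have h2 := hEM H x
    have h3 := hMC H x
    have h4 := abs_sub_abs_le_abs_sub (E G ψ H x) (M H x)
    linarith
  have hi2 : Integrable (fun x => Ψ (fun j => W j H x) * M H x) μ := by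
    refine Integrable.of_bound (hΨc.mul (hMc H)).aestronglyMeasurable (B * C) (Eventually.of_forall fun x => ?_)
    rw [norm_mul, Real.norm_eq_abs, Real.norm_eq_abs]
    exact mul_le_mul (hBW H x) (hMC H x) (abs_nonneg _) hB0
  have h5 : |∫ x, Ψ (fun j => W j H x) * E G ψ H x ∂μ - ∫ x, Ψ (fun j => W j H x) * M H x ∂μ| ≤
      B * (ε / (2 * (B + 1))) := by
    rw [← integral_sub hi1 hi2, ← Real.norm_eq_abs]
    refine (norm_integral_le_of_norm_le_const (C := B * (ε / (2 * (B + 1)))) (Eventually.of_forall fun x => ?_)).trans ?_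
    · rw [← mul_sub, norm_mul, Real.norm_eq_abs, Real.norm_eq_abs]
      exact mul_le_mul (hBW H x) (hEM H x) (abs_nonneg _) hB0
    · rw [probReal_univ, mul_one]
  have h6 : B * (ε / (2 * (B + 1))) < ε / 2 := by
    rw [mul_div_assoc', div_lt_div_iff₀ (by positivity) (by norm_num)]
    nlinarith
  have h7 := abs_sub_abs_le_abs_sub (∫ x, Ψ (fun j => W j H x) * E G ψ H x ∂μ) (∫ x, Ψ (fun j => W j H x) * M H x ∂μ)
  linarith

end Pool.Agent.Helper47.Law
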