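import Pool.Agent.Helper47.Law.Main

/-!
# The statistics of a window (helper47)
-/

set_option autoImplicit false

open Finset MeasureTheory Filter Topology

namespace Pool.Agent.Helper47.Law

open Pool.Agent.Results.MP_4a7640_nt.DisplacedCubes (Val X shift seq IsFurstenbergSystem IsMult Aperiodic cube
  val_le mean_int)

lemma S_range (H : ℕ) (x : X) (α : UnitAddCircle) :
    S H x α = ∑ h ∈ range H, ((x (h : ℤ) : ℝ) : ℂ) * fourier (h : ℤ) α := by
  unfold S
  symm
  refine sum_bij (fun (h : ℕ) _ => (h : ℤ)) ?_ ?_ ?_ ?_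
  · intro h hh
    rw [mem_range] at hh
    rw [mem_Ico]
    omega
  · intro a _ b _ hab
    exact_mod_cast hab
  · intro z hz
    rw [mem_Ico] at hz
    exact ⟨z.toNat, mem_range.2 (by omega), by omega⟩
  · intro h _
    rfl

/-- strengths -/
lemma strength_mem (k : ℕ) (hk : 2 ≤ k) :
    (fun (H : ℕ) (x : X) => (H : ℝ) * ∫ α : UnitAddCircle, ‖F H x α‖ ^ (2 * k)) ∈ UT1 := by
  obtain ⟨K, rfl⟩ : ∃ K, k = K + 1 := ⟨k - 1, by omega⟩
  have e1 : (fun (H : ℕ) (x : X) => (H : ℝ) * ∫ α : UnitAddCircle, ‖F H x α‖ ^ (2 * (K + 1))) =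
      fun H x => (D K 0 H x).re := by
    funext H x
    unfold D F
    simp only [fourier_zero, one_mul]
    rw [integral_complex_ofReal, ← Complex.ofReal_natCast, ← Complex.ofReal_mul, Complex.ofReal_re]
  constructor
  · rw [e1]
    exact D_zero_mem K (by omega)
  · intro H x
    have h1 := F_mom (2 * K) H x
    have h2 : 0 ≤ (H : ℝ) * ∫ α : UnitAddCircle, ‖F H x α‖ ^ (2 * (K + 1)) :=
      mul_nonneg (Nat.cast_nonneg H) (integral_nonneg fun α => by positivity)
    rw [abs_of_nonneg h2]
    exact h1

/-- averages over cubes -/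
noncomputable def cav (m : ℕ) (A : Finset (Finset (Fin m))) (H : ℕ) (x : X) : ℝ :=
  (1 / (H : ℝ) ^ (m + 1)) * ∑ b : Fin H, ∑ h : Fin m → Fin H, ∏ t ∈ A, (x ((b : ℕ) + ∑ i ∈ t, ((h i : ℕ) : ℤ)) : ℝ)

/-- the configuration of a cube -/
def ccf (m : ℕ) (A : Finset (Finset (Fin m))) : Cf where
  P := A
  C := Option (Fin m)
  fP := inferInstance
  dP := inferInstance
  fC := inferInstance
  dC := inferInstance
  τ := fun t => insert none (t.1.map Function.Embedding.some)
  inj := by
    intro s t h
    apply Subtype.ext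
    ext i
    rw [Finset.ext_iff] at h
    have := h (some i)
    simpa using this
  ne := fun t => ⟨none, by simp⟩
  d := fun _ => 0

lemma ccf_pr (m : ℕ) (A : Finset (Finset (Fin m))) (h : Option (Fin m) → ℤ) (x : X) :
    (ccf m A).pr h x = ∏ t ∈ A, (x (h none + ∑ i ∈ t, h (some i)) : ℝ) := by
  have e1 : (ccf m A).pr h x = ∏ t : A, (x (∑ i ∈ insert none (t.1.map Function.Embedding.some), h i + 0) : ℝ) := rfl
  rw [e1, ← prod_coe_sort A (fun t => (x (h none + ∑ i ∈ t, h (some i)) : ℝ))]
  apply prod_congr rfl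
  intro t _
  rw [sum_insert (by simp), sum_map, add_zero]
  rfl

open Classical in
lemma cav_mem (m : ℕ) (A : Finset (Finset (Fin m))) : cav m A ∈ UT1 := by
  constructor
  · refine ⟨ccf m A, fun H h => if ∀ i, 0 ≤ h i then 1 else 0, fun H h => by dsimp only; split_ifs <;> simp, fun _ => rfl, ?_⟩
    funext H x
    unfold cav Tm
    have e0 : Fintype.card (ccf m A).C = m + 1 := by
      show Fintype.card (Option (Fin m)) = _
      rw [Fintype.card_option, Fintype.card_fin]
    rw [e0]
    congr 1
    have e1 : ∑ h ∈ Box (ccf m A).C H, (if ∀ i, 0 ≤ h i then (1 : ℝ) else 0) * (ccf m A).pr h x =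
        ∑ h ∈ (Box (ccf m A).C H).filter (fun h => ∀ i, 0 ≤ h i), (ccf m A).pr h x := by
      rw [sum_filter]
      apply sum_congr rfl
      intro h _
      split_ifs <;> simp
    rw [e1, ← Fintype.sum_prod_type']
    refine sum_bij (fun (q : Fin H × (Fin m → Fin H)) _ => (fun i : Option (Fin m) => match i with
        | none => ((q.1 : ℕ) : ℤ)
        | some i => ((q.2 i : ℕ) : ℤ))) ?_ ?_ ?_ ?_
    · intro q _
      refine mem_filter.2 ⟨?_, ?_⟩
      · unfold Box
        refine Fintype.mem_piFinset.2 fun i => ?_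
        rcases i with _ | i
        · have := q.1.2
          simp only [mem_Ioo]
          omega
        · have := (q.2 i).2
          simp only [mem_Ioo]
          omega
      · intro i
        rcases i with _ | i
        · simp
        · simp
    · intro q _ q' _ h
      have h0 := congrFun h none
      simp only [Nat.cast_inj] at h0
      refine Prod.ext (Fin.ext h0) ?_
      funext i
      have h1 := congrFun h (some i)
      simp only [Nat.cast_inj] at h1
      exact Fin.ext h1
    · intro h hh
      obtain ⟨hh1, hh2⟩ := mem_filter.1 hh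
      unfold Box at hh1
      have hh3 := Fintype.mem_piFinset.1 hh1
      have hh4 : ∀ i : Option (Fin m), (h i).toNat < H := by
        intro i
        have h5 := mem_Ioo.1 (hh3 i)
        have h6 := hh2 i
        omega
      refine ⟨(⟨(h none).toNat, hh4 none⟩, fun i => ⟨(h (some i)).toNat, hh4 (some i)⟩), mem_univ _, ?_⟩
      funext i
      rcases i with _ | i
      · have := hh2 none
        simp only
        omega
      · have := hh2 (some i)
        simp only
        omega
    · intro q _
      rw [ccf_pr]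
  · intro H x
    unfold cav
    rcases Nat.eq_zero_or_pos H with h0 | h0
    · subst h0
      simp
    have hH : (0 : ℝ) < H := by exact_mod_cast h0
    rw [abs_mul, abs_of_nonneg (by positivity), one_div, inv_mul_le_iff₀ (by positivity), mul_one]
    rw [← Fintype.sum_prod_type' (f := fun (b : Fin H) (h : Fin m → Fin H) =>
      ∏ t ∈ A, (x ((b : ℕ) + ∑ i ∈ t, ((h i : ℕ) : ℤ)) : ℝ))]
    refine (abs_sum_le_sum_abs _ _).trans ?_
    refine (sum_le_card_nsmul _ _ 1 fun q _ => ?_).trans ?_
    · rw [abs_prod]
      exact prod_le_one (fun _ _ => abs_nonneg _) fun _ _ => val_le _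
    · rw [nsmul_eq_mul, mul_one, card_univ, Fintype.card_prod, Fintype.card_fun, Fintype.card_fin, Fintype.card_fin]
      push_cast
      rw [pow_succ, mul_comm]

end Pool.Agent.Helper47.Law
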